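import Mathlib
import Pool.Agent.H.MP_acbfbf_co.Main

namespace Pool.Agent.Results.MP_acbfbf_co.Full

open PowerSeries Finset

/-- The q-Pochhammer symbol (a; q)_n. -/
noncomputable def poch (a q : ℚ⟦X⟧) (n : ℕ) : ℚ⟦X⟧ := ∏ k ∈ range n, (1 - a * q ^ k)

/-- The Gaussian binomial coefficient in the base q. -/
noncomputable def gauss (q : ℚ⟦X⟧) (n m : ℤ) : ℚ⟦X⟧ :=
  if 0 ≤ m ∧ m ≤ n then poch q q n.toNat * (poch q q m.toNat * poch q q (n - m).toNat)⁻¹ else 0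

open Pool.Agent.H.MP_acbfbf_co

theorem gauss_eq {k : ℕ} (hk : k ≠ 0) (M : ℕ) : gauss (X ^ k) ((M + 4 : ℕ) - 2) 2 = G k M := by
  have e1 : (((M + 4 : ℕ) : ℤ) - 2).toNat = M + 2 := by omega
  have e2 : (((M + 4 : ℕ) : ℤ) - 2 - 2).toNat = M := by omega
  rw [gauss, if_pos (by omega), e1, e2, PowerSeries.mul_inv_rev]
  have h0 : poch (X ^ k) (X ^ k) M * (poch (X ^ k) (X ^ k) M)⁻¹ = 1 :=
    PowerSeries.mul_inv_cancel _ (by simp [poch, hk])
  have h1 : (poch (X ^ k) (X ^ k) (2 : ℤ).toNat)⁻¹ = I k * I (2 * k) := by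
    rw [poch, inv_prod, show (2 : ℤ).toNat = 2 from rfl, prod_range_succ, prod_range_one, I, I]
    congr 3 <;> ring
  have h2 : poch (X ^ k) (X ^ k) (M + 2)
      = poch (X ^ k) (X ^ k) M * (1 - (X ^ k) ^ (M + 1)) * (1 - (X ^ k) ^ (M + 2)) := by
    rw [poch, prod_range_succ, prod_range_succ, ← poch]; ring
  rw [h1, h2, G]
  linear_combination (1 - (X ^ k) ^ (M + 1)) * (1 - (X ^ k) ^ (M + 2)) * I k * I (2 * k) * h0

theorem result (L : ℕ) (hL : 1 ≤ L) (n : ℕ) :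
    coeff n (X * gauss X ((L : ℤ) - 2) 2 * poch (-X ^ 3) X (L - 4)) ≤
      coeff n ((poch X (X ^ 2) L)⁻¹ *
        ((1 - X ^ (2 * L - 2)) * (1 - X ^ 2)⁻¹ + X ^ 3 * gauss (X ^ 2) ((L : ℤ) - 2) 2)) := by
  have e0 : (poch X (X ^ 2) L)⁻¹ = ∏ k ∈ range L, I (2 * k + 1) := by
    rw [poch, inv_prod]
    refine prod_congr rfl fun k _ => ?_
    rw [I]; congr 2; ring
  rw [e0, show (1 - X ^ 2 : ℚ⟦X⟧)⁻¹ = I 2 from rfl]
  by_cases h : L < 4
  · rw [gauss, gauss, if_neg (by omega), if_neg (by omega),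
      show 2 * L - 2 = 2 * (L - 1) by omega]
    simpa using (pprod (s := range L) fun k => pI (k := 2 * k + 1) (by omega)).mul (pA (L - 1)) n
  · obtain ⟨M, rfl⟩ : ∃ M, L = M + 4 := ⟨L - 4, by omega⟩
    have := main M n
    have g1 := gauss_eq one_ne_zero M
    rw [pow_one] at g1
    have e : poch (-X ^ 3) X M = ∏ k ∈ range M, (1 + X ^ (k + 3)) :=
      prod_congr rfl fun k _ => by ring
    rw [g1, gauss_eq two_ne_zero, show 2 * (M + 4) - 2 = 2 * (M + 3) by omega,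
      Nat.add_sub_cancel, e]
    rwa [map_sub, sub_nonneg] at this

end Pool.Agent.Results.MP_acbfbf_co.Full
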